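import Mathlib

open Matrix Finset Complex
open scoped ComplexOrder

namespace Pool.Agent.Results.MP_49fc99_mp.No

variable {ι κ : Type} [Fintype ι] [DecidableEq ι] [Fintype κ] [DecidableEq κ] {n : ℕ}

/-- `x ↦ ρ x` is a quantum random access code with success probability `p`. -/
def IsQRAC (p : ℝ) (ρ : (Fin n → Bool) → Matrix ι ι ℂ) : Prop :=
  (∀ x, (ρ x).PosSemidef ∧ (ρ x).trace = 1) ∧ ∀ i, ∃ M : Bool → Matrix ι ι ℂ,
    (∀ b, (M b).PosSemidef) ∧ M false + M true = 1 ∧ ∀ x, p ≤ (M (x i) * ρ x).trace.re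

/-- A single POVM decodes every bit of every string with error probability at most `ε`. -/
def Decodes (ε : ℝ) (ρ : (Fin n → Bool) → Matrix ι ι ℂ) : Prop :=
  ∃ Q : (Fin n → Bool) → Matrix ι ι ℂ, (∀ y, (Q y).PosSemidef) ∧ ∑ y, Q y = 1 ∧
    ∀ x i, ∑ y with y i ≠ x i, (Q y * ρ x).trace.re ≤ ε

omit [DecidableEq ι] [DecidableEq κ] in
lemma tr_sub (A : Matrix ι ι ℂ) (e : κ ≃ ι) : (A.submatrix e e).trace = A.trace := by
  simpa [trace] using e.sum_comp fun i => A i i

lemma IsQRAC.sub {p : ℝ} {ρ : (Fin n → Bool) → Matrix ι ι ℂ} (h : IsQRAC p ρ) (e : κ ≃ ι) :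
    IsQRAC p fun x => (ρ x).submatrix e e := by
  refine ⟨fun x => ⟨(h.1 x).1.submatrix e, by rw [tr_sub, (h.1 x).2]⟩, fun i => ?_⟩
  obtain ⟨M, h1, h2, h3⟩ := h.2 i
  refine ⟨fun b => (M b).submatrix e e, fun b => (h1 b).submatrix e, ?_, fun x => ?_⟩
  · rw [← submatrix_one_equiv e, ← h2]; rfl
  · rw [submatrix_mul_equiv, tr_sub]; exact h3 x

lemma Decodes.sub {ε : ℝ} {ρ : (Fin n → Bool) → Matrix ι ι ℂ} (e : κ ≃ ι)
    (h : Decodes ε fun x => (ρ x).submatrix e e) : Decodes ε ρ := by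
  obtain ⟨Q, h1, h2, h3⟩ := h
  refine ⟨fun y => (Q y).submatrix e.symm e.symm, fun y => (h1 y).submatrix _, ?_, fun x i => ?_⟩
  · rw [← submatrix_one_equiv e.symm, ← h2]; ext a b; simp [Matrix.sum_apply]
  · refine le_of_eq_of_le (sum_congr rfl fun y _ => ?_) (h3 x i)
    rw [← tr_sub _ e, ← submatrix_mul_equiv _ _ _ e]; simp

lemma psd_blocks {A : Matrix ι ι ℂ} {D : Matrix κ κ ℂ} (hA : A.PosSemidef) (hD : D.PosSemidef) :
    (fromBlocks A 0 0 D).PosSemidef := by
  open scoped MatrixOrder in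
  obtain ⟨B, rfl⟩ := CStarAlgebra.nonneg_iff_eq_star_mul_self.mp hA.nonneg
  open scoped MatrixOrder in
  obtain ⟨C, rfl⟩ := CStarAlgebra.nonneg_iff_eq_star_mul_self.mp hD.nonneg
  have := posSemidef_conjTranspose_mul_self (fromBlocks B 0 0 C)
  simpa [fromBlocks_conjTranspose, fromBlocks_multiply, star_eq_conjTranspose] using this

omit [DecidableEq ι] in
lemma tr_blocks (Q : Matrix (ι ⊕ κ) (ι ⊕ κ) ℂ) (A : Matrix ι ι ℂ) (d : κ → ℂ) :
    (Q * fromBlocks A 0 0 (diagonal d)).trace =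
      (Q.toBlocks₁₁ * A).trace + ∑ a, Q (.inr a) (.inr a) * d a := by
  conv_lhs => rw [← fromBlocks_toBlocks Q, fromBlocks_multiply]
  simp [trace, toBlocks₂₂]

def G : Fin 5 → Matrix (Fin 4) (Fin 4) ℂ :=
  ![!![0, 0, 1, 0; 0, 0, 0, 1; 1, 0, 0, 0; 0, 1, 0, 0],
    !![0, 0, -I, 0; 0, 0, 0, -I; I, 0, 0, 0; 0, I, 0, 0],
    !![0, 1, 0, 0; 1, 0, 0, 0; 0, 0, 0, -1; 0, 0, -1, 0],
    !![0, -I, 0, 0; I, 0, 0, 0; 0, 0, 0, I; 0, 0, -I, 0],
    !![1, 0, 0, 0; 0, -1, 0, 0; 0, 0, -1, 0; 0, 0, 0, 1]]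

lemma G_h (i : Fin 5) : (G i)ᴴ = G i := by
  fin_cases i <;> ext a b <;> fin_cases a <;> fin_cases b <;> simp [G]

lemma G_tr (i : Fin 5) : (G i).trace = 0 := by
  fin_cases i <;> simp [G, trace, Fin.sum_univ_four]

lemma G_ac (i j : Fin 5) : G i * G j + G j * G i = if i = j then 2 else 0 := by
  have e : (2 : Matrix (Fin 4) (Fin 4) ℂ) = !![2, 0, 0, 0; 0, 2, 0, 0; 0, 0, 2, 0; 0, 0, 0, 2] := by
    ext a b; fin_cases a <;> fin_cases b <;> simp [ofNat_apply]
  have e0 : (0 : Matrix (Fin 4) (Fin 4) ℂ) = !![0, 0, 0, 0; 0, 0, 0, 0; 0, 0, 0, 0; 0, 0, 0, 0] := by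
    ext a b; fin_cases a <;> fin_cases b <;> simp
  rw [e, e0]
  fin_cases i <;> fin_cases j <;> simp [G] <;> norm_num

lemma G_sq (i : Fin 5) : G i * G i = 1 := by
  have := G_ac i i
  rw [if_pos rfl, ← two_smul ℂ, ← one_add_one_eq_two (R := Matrix _ _ ℂ), ← two_smul ℂ] at this
  exact smul_right_injective _ two_ne_zero this

lemma G_tr2 (i j : Fin 5) : (G i * G j).trace = if i = j then 4 else 0 := by
  have := congrArg trace (G_ac i j)
  rw [trace_add, trace_mul_comm (G j)] at this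
  split_ifs at * with h
  · rw [h, G_sq]; simp
  · simpa using this

def σ (b : Bool) : ℂ := if b then -1 else 1

lemma σ_sq (b : Bool) : σ b * σ b = 1 := by cases b <;> simp [σ]

noncomputable def P (i : Fin 5) (b : Bool) : Matrix (Fin 4) (Fin 4) ℂ :=
  (1 / 2 : ℂ) • (1 + σ b • G i)

lemma P_psd (i : Fin 5) (b : Bool) : (P i b).PosSemidef := by
  have h1 : (P i b)ᴴ = P i b := by cases b <;> simp [P, σ, G_h]
  have h2 : P i b * P i b = P i b := by
    simp only [P, smul_mul_smul_comm, mul_add, add_mul, one_mul, mul_one, G_sq, σ_sq, one_smul]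
    module
  have := posSemidef_conjTranspose_mul_self (P i b)
  rwa [h1, h2] at this

lemma P_tr (i j : Fin 5) (b c : Bool) :
    (P i b * P j c).trace = 1 + if i = j then σ b * σ c else 0 := by
  simp only [P, smul_mul_smul_comm, mul_add, add_mul, one_mul, mul_one, trace_smul, trace_add,
    G_tr, G_tr2, trace_one]
  split_ifs <;> simp <;> ring

abbrev X := Fin 5 → Bool

def base (i : Fin 5) : X := fun k => decide (k = i + 1)

def In (i : Fin 5) (x : X) : Prop := ∀ k, k ≠ i → x k = base i k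

instance (i : Fin 5) (x : X) : Decidable (In i x) := by unfold In; infer_instance

lemma In_uniq : ∀ x i j, In i x → In j x → i = j := by decide +kernel

noncomputable def ρ (x : X) : Matrix (Fin 4 ⊕ X ⊕ Fin 28) (Fin 4 ⊕ X ⊕ Fin 28) ℂ :=
  if h : ∃ i, In i x then fromBlocks ((1 / 4 : ℂ) • P h.choose (x h.choose)) 0 0
    (diagonal (Pi.single (.inl (base h.choose)) (1 / 2)))
  else fromBlocks 0 0 0 (diagonal (Pi.single (.inl x) 1))

lemma ρ_in {i : Fin 5} {x : X} (h : In i x) : ρ x = fromBlocks ((1 / 4 : ℂ) • P i (x i)) 0 0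
    (diagonal (Pi.single (.inl (base i)) (1 / 2))) := by
  have h' : ∃ i, In i x := ⟨i, h⟩
  rw [ρ, dif_pos h', In_uniq x _ _ h'.choose_spec h]

lemma qrac : IsQRAC (3 / 4) ρ := by
  have ps : ∀ (a : X ⊕ Fin 28) (c : ℂ), 0 ≤ c → (diagonal (Pi.single a c)).PosSemidef :=
    fun a c hc => posSemidef_diagonal_iff.2 fun b => by
      rw [Pi.single_apply]; split_ifs <;> simp [hc]
  have half : (0 : ℂ) ≤ 1 / 2 := by norm_num [Complex.le_def]
  refine ⟨fun x => ?_, fun j => ?_⟩
  · by_cases h : ∃ i, In i x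
    · obtain ⟨i, h⟩ := h
      rw [ρ_in h]
      refine ⟨psd_blocks ((P_psd _ _).smul (by norm_num [Complex.le_def])) (ps _ _ half), ?_⟩
      have := tr_blocks 1 ((1 / 4 : ℂ) • P i (x i)) (Pi.single (.inl (base i) : X ⊕ Fin 28) (1 / 2))
      rw [Matrix.one_mul] at this
      rw [this, ← fromBlocks_one, toBlocks_fromBlocks₁₁]
      simp [P, G_tr, -Fintype.sum_sum_type]; norm_num
    · rw [ρ, dif_neg h]
      refine ⟨psd_blocks PosSemidef.zero (ps _ _ zero_le_one), ?_⟩
      have := tr_blocks 1 (0 : Matrix (Fin 4) (Fin 4) ℂ) (Pi.single (.inl x : X ⊕ Fin 28) 1)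
      rw [Matrix.one_mul] at this
      rw [this]
      simp [-Fintype.sum_sum_type]
  let d : Bool → X ⊕ Fin 28 → ℂ := fun b => Sum.elim
    (fun l => if l = base j then 1 / 2 else if l j = b then 1 else 0) fun _ => 1 / 2
  refine ⟨fun b => fromBlocks (P j b) 0 0 (diagonal (d b)), fun b => psd_blocks (P_psd _ _)
    (posSemidef_diagonal_iff.2 fun a => ?_), ?_, fun x => ?_⟩
  · rcases a with l | l <;> simp only [d, Sum.elim_inl, Sum.elim_inr] <;> (try split_ifs) <;>
      first | exact half | simp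
  · rw [fromBlocks_add, ← fromBlocks_one, diagonal_add, ← diagonal_one (n := X ⊕ Fin 28)]
    congr 1
    · simp only [P, σ]; simp; module
    · simp
    · simp
    · congr 1; funext a
      rcases a with l | l <;> simp only [d, Sum.elim_inl, Sum.elim_inr]
      · split_ifs <;> simp_all; norm_num
      · norm_num
  by_cases h : ∃ i, In i x
  · obtain ⟨i, h⟩ := h
    rw [ρ_in h, tr_blocks, toBlocks_fromBlocks₁₁, Matrix.mul_smul, trace_smul, P_tr]
    simp only [fromBlocks_apply₂₂, diagonal_apply_eq, Pi.single_apply, mul_ite, mul_zero,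
      sum_ite_eq', mem_univ, if_true, d, Sum.elim_inl]
    by_cases e : j = i
    · subst e; simp [σ_sq]; norm_num
    · have e2 : base i ≠ base j := fun h' => e (In_uniq (base i) _ _ (fun _ _ => by rw [h'])
        fun _ _ => rfl)
      simp [e, e2, h j e]; norm_num
  · have e2 : x ≠ base j := fun h' => h ⟨j, fun _ _ => by rw [h']⟩
    rw [ρ, dif_neg h, tr_blocks]
    simp only [fromBlocks_apply₂₂, diagonal_apply_eq, Pi.single_apply, mul_ite, mul_zero,
      sum_ite_eq', mem_univ, if_true, d, Sum.elim_inl]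
    simp [e2]; norm_num

lemma nodec : ¬ Decodes (2 * (3 / 4) * (1 - 3 / 4)) ρ := by
  rintro ⟨Q, h1, h2, h3⟩
  let R := fun y => (Q y).toBlocks₁₁
  have R1 : ∑ y, (R y).trace = 4 := by
    have : ∑ y, R y = 1 := by
      ext a b
      have := congrFun (congrFun h2 (.inl a)) (.inl b)
      simpa [R, Matrix.sum_apply, toBlocks₁₁, one_apply] using this
    rw [← trace_sum, this]; simp
  have Q1 : ∀ a, ∑ y, Q y a a = 1 := fun a => by
    simpa [Matrix.sum_apply] using congrFun (congrFun h2 a) a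
  have k1 : ∀ i, 2 ≤ (∑ y, σ (y i) * (R y * G i).trace).re := fun i => by
    have hin : ∀ b, In i (Function.update (base i) i b) := fun b k hk => by simp [hk]
    have a0 := h3 (Function.update (base i) i false) i
    have a1 := h3 (Function.update (base i) i true) i
    rw [ρ_in (hin _), sum_filter] at a0 a1
    have := add_le_add a0 a1
    rw [← sum_add_distrib, sum_congr rfl (g := fun y => ((R y).trace / 8 - σ (y i) *
      (R y * G i).trace / 8 + Q y (.inr (.inl (base i))) (.inr (.inl (base i))) / 2).re)] at this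
    · rw [← re_sum, sum_add_distrib, sum_sub_distrib, ← sum_div, ← sum_div, ← sum_div, R1, Q1]
        at this
      simp only [add_re, sub_re, div_ofNat_re, re_ofNat, one_re] at this
      linarith
    · intro y _
      simp only [tr_blocks, Pi.single_apply, mul_ite, mul_zero, sum_ite_eq', mem_univ, if_true,
        Function.update_self, P, Matrix.mul_smul, Matrix.mul_add, Matrix.mul_one, trace_smul,
        trace_add]
      cases y i <;> simp [σ, R] <;> ring
  have k2 : ∀ y : X, (∑ i, σ (y i) * (R y * G i).trace).re ≤ 9 / 4 * (R y).trace.re := fun y => by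
    set A := ∑ i, σ (y i) • G i
    have hA : Aᴴ = A := by
      simp only [A, conjTranspose_sum, conjTranspose_smul, G_h]
      exact sum_congr rfl fun i _ => by cases y i <;> simp [σ]
    have A2 : A * A = (5 : ℂ) • 1 := by
      have e1 : A * A = ∑ i, ∑ j, (σ (y i) * σ (y j)) • (G i * G j) := by
        simp only [A, Finset.sum_mul_sum, smul_mul_smul_comm]
      have e2 : A * A = ∑ i, ∑ j, (σ (y j) * σ (y i)) • (G j * G i) := by rw [e1, sum_comm]
      refine smul_right_injective _ (two_ne_zero (α := ℂ)) ?_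
      simp only [two_smul]
      nth_rewrite 1 [e1, e2]
      rw [← sum_add_distrib, sum_congr rfl (g := fun _ => (2 : ℂ) • 1)]
      · rw [Fin.sum_univ_five]; module
      intro i _
      rw [← sum_add_distrib, sum_congr rfl (g := fun j => if i = j then (2 : ℂ) • 1 else 0)]
      · simp
      intro j _
      rw [mul_comm (σ (y j)), ← smul_add, G_ac]
      split_ifs with h
      · rw [h, σ_sq, one_smul, two_smul, one_add_one_eq_two]
      · simp
    have hR : (R y).PosSemidef := (h1 y).submatrix Sum.inl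
    have := (hR.conjTranspose_mul_mul_same (A - (2 : ℂ) • 1)).trace_nonneg
    rw [Matrix.mul_assoc, trace_mul_comm, Matrix.mul_assoc, conjTranspose_sub, hA] at this
    simp only [conjTranspose_smul, conjTranspose_one, Matrix.mul_sub, Matrix.sub_mul, A2,
      Matrix.mul_smul, Matrix.smul_mul, Matrix.mul_one, Matrix.one_mul, trace_sub, trace_smul,
      star_ofNat] at this
    have e : (R y * A).trace = ∑ i, σ (y i) * (R y * G i).trace := by
      simp [A, Finset.mul_sum, trace_sum]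
    rw [← e]
    have := (Complex.le_def.1 this).1
    simp at this
    linarith
  have s1 := sum_le_sum fun i (_ : i ∈ univ) => k1 i
  have s2 := sum_le_sum fun y (_ : y ∈ univ) => k2 y
  rw [← re_sum, sum_comm, re_sum] at s1
  rw [← mul_sum, ← re_sum (f := fun y => (R y).trace), R1] at s2
  simp only [sum_const, card_univ, Fintype.card_fin, nsmul_eq_mul, re_ofNat] at s1 s2
  norm_num at s1 s2
  linarith

theorem result : ∃ ρ : (Fin 5 → Bool) → Matrix (Fin (2 ^ 6)) (Fin (2 ^ 6)) ℂ,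
    IsQRAC (3 / 4) ρ ∧ ¬ Decodes (2 * (3 / 4) * (1 - 3 / 4)) ρ := by
  have e : Fin (2 ^ 6) ≃ Fin 4 ⊕ X ⊕ Fin 28 := Fintype.equivOfCardEq (by simp)
  exact ⟨_, qrac.sub e, fun h => nodec (h.sub e)⟩

end Pool.Agent.Results.MP_49fc99_mp.No
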